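import Mathlib

open Finset

namespace Pool.Agent.Results.MP_2a6b7d_co.Proximity

/-- Scherk-Kemperman: if `a0 + b0` has only one representation in `A + B`, then
`|A + B| ≥ |A| + |B| - 1`. -/
theorem scherk {Γ : Type*} [AddCommGroup Γ] [DecidableEq Γ] (a0 b0 : Γ) :
    ∀ (n : ℕ) (A B : Finset Γ), B.card = n → a0 ∈ A → b0 ∈ B →
      (∀ a ∈ A, ∀ b ∈ B, a + b = a0 + b0 → b = b0) →
      ∀ C : Finset Γ, (∀ a ∈ A, ∀ b ∈ B, a + b ∈ C) → A.card + B.card ≤ C.card + 1 := by
  intro n
  induction n using Nat.strong_induction_on with
  | _ n ih =>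
    intro A B hn ha hb hu C hC
    by_cases hB : ∃ b ∈ B, b ≠ b0
    · obtain ⟨b, hbB, hbne⟩ := hB
      have hex : ∃ a ∈ A, a + (b - b0) ∉ A := by
        by_contra hcon
        push Not at hcon
        have hsub : A.image (fun x => x + (b - b0)) ⊆ A := by
          intro x hx
          obtain ⟨a, haA, rfl⟩ := mem_image.1 hx
          exact hcon a haA
        have hcard : (A.image (fun x => x + (b - b0))).card = A.card :=
          card_image_of_injective _ (add_left_injective _)
        have heq : A.image (fun x => x + (b - b0)) = A :=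
          eq_of_subset_of_card_le hsub hcard.ge
        have h0 : a0 ∈ A.image (fun x => x + (b - b0)) := heq.symm ▸ ha
        obtain ⟨a, haA, hae⟩ := mem_image.1 h0
        apply hbne
        apply hu a haA b hbB
        rw [← hae]; abel
      obtain ⟨a, haA, hna⟩ := hex
      -- Dyson transform with `e = a - b0`
      let I : Finset Γ := B.image (fun x => (a - b0) + x)
      let A' : Finset Γ := A ∪ I
      let B' : Finset Γ := B.filter (fun x => (a - b0) + x ∈ A)
      have hb' : b0 ∈ B' := by
        simp only [B', mem_filter]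
        refine ⟨hb, ?_⟩
        simpa using haA
      have ha' : a0 ∈ A' := mem_union_left _ ha
      have hbn : b ∉ B' := by
        simp only [B', mem_filter, not_and]
        intro _ h
        apply hna
        have : a + (b - b0) = (a - b0) + b := by abel
        rw [this]; exact h
      have hlt : B'.card < n := by
        rw [← hn]
        apply card_lt_card
        refine ⟨filter_subset _ _, fun h => hbn (h hbB)⟩
      have hcard : A'.card + B'.card = A.card + B.card := by
        have h1 : (I \ A).card + (I ∩ A).card = I.card := card_sdiff_add_card_inter I A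
        have h2 : I.card = B.card := card_image_of_injective _ (add_right_injective _)
        have h3 : (I ∩ A).card = B'.card := by
          have : I ∩ A = B'.image (fun x => (a - b0) + x) := by
            ext y
            simp only [I, B', mem_inter, mem_image, mem_filter]
            constructor
            · rintro ⟨⟨x, hx, rfl⟩, hA⟩
              exact ⟨x, ⟨hx, hA⟩, rfl⟩
            · rintro ⟨x, ⟨hx, hA⟩, rfl⟩
              exact ⟨⟨x, hx, rfl⟩, hA⟩
          rw [this]
          exact card_image_of_injective _ (add_right_injective _)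
        have h4 : A'.card = A.card + (I \ A).card := by
          simp only [A']
          rw [← union_sdiff_self_eq_union, card_union_of_disjoint disjoint_sdiff]
        omega
      have := ih B'.card hlt A' B' rfl ha' hb' ?_ C ?_
      · omega
      · intro x hx y hy hxy
        have hyB : y ∈ B := (mem_filter.1 hy).1
        have hyA : (a - b0) + y ∈ A := (mem_filter.1 hy).2
        rcases mem_union.1 hx with hxA | hxI
        · exact hu x hxA y hyB hxy
        · obtain ⟨z, hz, rfl⟩ := mem_image.1 hxI
          have h1 : z = b0 := by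
            apply hu _ hyA z hz
            rw [← hxy]; abel
          subst h1
          apply hu a haA y hyB
          rw [← hxy]; abel
      · intro x hx y hy
        have hyB : y ∈ B := (mem_filter.1 hy).1
        have hyA : (a - b0) + y ∈ A := (mem_filter.1 hy).2
        rcases mem_union.1 hx with hxA | hxI
        · exact hC x hxA y hyB
        · obtain ⟨z, hz, rfl⟩ := mem_image.1 hxI
          have h1 : (a - b0) + z + y = ((a - b0) + y) + z := by abel
          rw [h1]
          exact hC _ hyA z hz
    · push Not at hB
      have hB1 : B = {b0} := by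
        apply eq_singleton_iff_unique_mem.2 ⟨hb, hB⟩
      subst hB1
      have : A.card ≤ C.card := by
        have h1 : (A.image (fun x => x + b0)).card = A.card :=
          card_image_of_injective _ (add_left_injective _)
        rw [← h1]
        apply card_le_card
        intro x hx
        obtain ⟨y, hy, rfl⟩ := mem_image.1 hx
        exact hC y hy b0 (mem_singleton_self _)
      simp
      omega

open Classical in
/-- The labels of the bases `J` of `M` with `I ⊆ J ⊆ R`. -/
noncomputable def labels {α Γ : Type*} [AddCommGroup Γ] (M : Matroid α) (ψ : α → Γ)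
    (R I : Finset α) : Finset Γ :=
  (R.powerset.filter (fun J => I ⊆ J ∧ M.IsBase (J : Set α))).image (fun J => ∑ x ∈ J, ψ x)

open Classical in
theorem mem_labels {α Γ : Type*} [AddCommGroup Γ] {M : Matroid α} {ψ : α → Γ}
    {R I : Finset α} {g : Γ} : g ∈ labels M ψ R I ↔
      ∃ J : Finset α, J ⊆ R ∧ I ⊆ J ∧ M.IsBase (J : Set α) ∧ ∑ x ∈ J, ψ x = g := by
  simp only [labels, mem_image, mem_filter, mem_powerset]
  constructor
  · rintro ⟨J, ⟨h1, h2, h3⟩, h4⟩; exact ⟨J, h1, h2, h3, h4⟩
  · rintro ⟨J, h1, h2, h3, h4⟩; exact ⟨J, ⟨h1, h2, h3⟩, h4⟩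

open Classical in
/-- Basis exchange in the form used below. -/
theorem exch {α : Type*} {M : Matroid α} {J : Finset α} (hJ : M.IsBase (J : Set α)) {e f : α}
    (he : e ∈ J) (hfE : f ∈ M.E) (hf : f ∉ M.closure ((J.erase e : Finset α) : Set α)) :
    f ∉ J.erase e ∧ M.IsBase ((insert f (J.erase e) : Finset α) : Set α) := by
  have hsub : ((J.erase e : Finset α) : Set α) ⊆ (J : Set α) := by
    exact_mod_cast erase_subset e J
  have hI : M.Indep ((J.erase e : Finset α) : Set α) := hJ.indep.subset hsub
  have hfn : f ∉ ((J.erase e : Finset α) : Set α) := fun h =>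
    hf (M.mem_closure_of_mem h (hI.subset_ground))
  refine ⟨by exact_mod_cast hfn, ?_⟩
  have hind : M.Indep (insert f ((J.erase e : Finset α) : Set α)) :=
    ((hI.notMem_closure_iff hfE).1 hf).1
  by_cases hfe : f = e
  · subst hfe
    rw [insert_erase he]; exact hJ
  · have hfJ : f ∉ (J : Set α) := by
      intro h
      apply hfn
      rw [coe_erase]
      exact ⟨h, hfe⟩
    rw [coe_insert, coe_erase]
    rw [coe_erase] at hind
    exact hJ.exchange_isBase_of_indep hfJ hind

open Classical in
/-- The rank (a natural number) of the class of `g` together with `I`. -/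
noncomputable def crk {α Γ : Type*} (M : Matroid α) (ψ : α → Γ)
    (R I : Finset α) (g : Γ) : ℕ :=
  (M.eRk ((R.filter (fun x => ψ x = g) : Finset α) ∪ (I : Set α))).toNat

open Classical in
/-- The matroidal Scherk-Kemperman inequality, proved by contracting one element at a time. -/
theorem key {α Γ : Type*} [AddCommGroup Γ] (M : Matroid α) (ψ : α → Γ)
    (R K Bs : Finset α) (hRE : (R : Set α) ⊆ M.E) (hBsR : Bs ⊆ R) (hBs : M.IsBase (Bs : Set α))
    (huniq : ∀ J : Finset α, J ⊆ R → K ⊆ J → M.IsBase (J : Set α) →
      ∑ x ∈ J, ψ x = ∑ x ∈ Bs, ψ x → J = Bs) :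
    ∀ (n : ℕ) (I : Finset α), K ⊆ I → I ⊆ Bs → (Bs \ I).card = n →
      1 + ∑ g ∈ R.image ψ, crk M ψ R I g ≤
        (labels M ψ R I).card + (Bs \ I).card + (R.image ψ).card * I.card := by
  intro n
  induction n with
  | zero =>
    intro I hKI hIB hc
    have hIeq : I = Bs := by
      apply Subset.antisymm hIB
      rw [← sdiff_eq_empty_iff_subset]
      exact card_eq_zero.1 hc
    subst hIeq
    have h1 : 1 ≤ (labels M ψ R I).card := by
      apply card_pos.2
      exact ⟨_, mem_labels.2 ⟨I, hBsR, Subset.rfl, hBs, rfl⟩⟩
    have h2 : ∑ g ∈ R.image ψ, crk M ψ R I g ≤ (R.image ψ).card * I.card := by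
      rw [← smul_eq_mul]
      apply sum_le_card_nsmul
      intro g _
      unfold crk
      have h3 : M.eRk ((R.filter (fun x => ψ x = g) : Finset α) ∪ (I : Set α)) ≤ (I.card : ℕ∞) := by
        calc M.eRk ((R.filter (fun x => ψ x = g) : Finset α) ∪ (I : Set α))
            ≤ M.eRank := M.eRk_le_eRank _
          _ = (I : Set α).encard := hBs.encard_eq_eRank.symm
          _ = (I.card : ℕ∞) := by rw [Set.encard_coe_eq_coe_finsetCard]
      exact ENat.toNat_le_of_le_natCast h3
    omega
  | succ n ih =>
    intro I hKI hIB hc
    obtain ⟨e, he⟩ : (Bs \ I).Nonempty := card_pos.1 (by omega)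
    obtain ⟨heB, heI⟩ := mem_sdiff.1 he
    have hI'B : insert e I ⊆ Bs := insert_subset heB hIB
    have hKI' : K ⊆ insert e I := hKI.trans (subset_insert _ _)
    have hsd : Bs \ insert e I = (Bs \ I).erase e := by
      ext x; simp only [mem_sdiff, mem_insert, mem_erase]; tauto
    have hc' : (Bs \ insert e I).card = n := by
      rw [hsd, card_erase_of_mem he, hc]; rfl
    have hIH := ih (insert e I) hKI' hI'B hc'
    have heE : e ∈ M.E := hRE (by exact_mod_cast hBsR heB)
    -- the set of labels whose class spans `e` over `I`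
    let T : Finset Γ := (R.image ψ).filter
      (fun g => e ∈ M.closure ((R.filter (fun x => ψ x = g) : Finset α) ∪ (I : Set α)))
    have hrk : ∀ g, crk M ψ R (insert e I) g =
        crk M ψ R I g + (if e ∈ M.closure ((R.filter (fun x => ψ x = g) : Finset α) ∪ (I : Set α))
          then 0 else 1) := by
      intro g
      unfold crk
      have hins : ((R.filter (fun x => ψ x = g) : Finset α) : Set α) ∪
          ((insert e I : Finset α) : Set α) =
          insert e (((R.filter (fun x => ψ x = g) : Finset α) : Set α) ∪ (I : Set α)) := by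
        rw [coe_insert, Set.union_insert]
      rw [hins]
      split_ifs with h
      · rw [← M.eRk_closure_eq (insert e _), M.closure_insert_eq_of_mem_closure h,
          M.eRk_closure_eq]; rfl
      · rw [M.eRk_insert_eq_add_one ⟨heE, h⟩]
        rw [ENat.toNat_add _ (by simp)]
        · rfl
        · rw [Matroid.eRk_ne_top_iff]
          exact M.isRkFinite_of_finite (by
            rw [← coe_union]; exact Finset.finite_toSet _)
    have hsum : ∑ g ∈ R.image ψ, crk M ψ R (insert e I) g + T.card =
        ∑ g ∈ R.image ψ, crk M ψ R I g + (R.image ψ).card := by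
      rw [sum_congr rfl (fun g _ => hrk g), sum_add_distrib]
      have hT : (R.image ψ).card = T.card + ∑ g ∈ R.image ψ,
          (if e ∈ M.closure ((R.filter (fun x => ψ x = g) : Finset α) ∪ (I : Set α))
          then 0 else 1) := by
        have h1 : T.card = ∑ g ∈ R.image ψ,
          (if e ∈ M.closure ((R.filter (fun x => ψ x = g) : Finset α) ∪ (I : Set α))
          then 1 else 0) := by
          simp only [T]
          rw [card_filter]
        rw [h1, ← sum_add_distrib, card_eq_sum_ones]
        apply sum_congr rfl
        intro g _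
        split_ifs <;> rfl
      omega
    -- Scherk-Kemperman step
    have hSK : (labels M ψ R (insert e I)).card + T.card ≤ (labels M ψ R I).card + 1 := by
      have hTc : (T.image (fun g => g - ψ e)).card = T.card :=
        card_image_of_injective _ (sub_left_injective)
      rw [← hTc]
      have hspan : ∀ g ∈ T, ∀ J : Finset α, J ⊆ R → insert e I ⊆ J → M.IsBase (J : Set α) →
          ∃ f ∈ R, ψ f = g ∧ f ∉ J.erase e ∧
            M.IsBase ((insert f (J.erase e) : Finset α) : Set α) := by
        intro g hg J hJR hIJ hJ
        have hge := (mem_filter.1 hg).2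
        by_contra hcon
        have hsub : (((R.filter (fun x => ψ x = g) : Finset α) : Set α) ∪ (I : Set α)) ⊆
            M.closure ((J.erase e : Finset α) : Set α) := by
          apply Set.union_subset
          · intro f hf
            by_contra hfc
            have hfm : f ∈ R ∧ ψ f = g := by simpa using hf
            have hfR : f ∈ R := hfm.1
            apply hcon
            have heJ : e ∈ J := hIJ (mem_insert_self _ _)
            obtain ⟨h1, h2⟩ := exch hJ heJ (hRE (by exact_mod_cast hfR)) hfc
            exact ⟨f, hfR, hfm.2, h1, h2⟩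
          · intro x hx
            have hxI : x ∈ I := by exact_mod_cast hx
            have hxe : x ≠ e := fun h => heI (h ▸ hxI)
            have hxJ : x ∈ J.erase e := mem_erase.2 ⟨hxe, hIJ (mem_insert_of_mem hxI)⟩
            refine M.mem_closure_of_mem (by exact_mod_cast hxJ) ?_
            exact (hJ.indep.subset (by exact_mod_cast erase_subset e J)).subset_ground
        have h3 : e ∈ M.closure ((J.erase e : Finset α) : Set α) :=
          M.closure_subset_closure_of_subset_closure hsub hge
        have heJ : e ∈ J := hIJ (mem_insert_self _ _)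
        have h4 := hJ.indep.notMem_closure_sdiff_of_mem (by exact_mod_cast heJ : e ∈ (J : Set α))
        apply h4
        rw [coe_erase] at h3
        exact h3
      apply scherk (∑ x ∈ Bs, ψ x) (0 : Γ) _ (labels M ψ R (insert e I))
        (T.image (fun g => g - ψ e)) rfl
      · exact mem_labels.2 ⟨Bs, hBsR, hI'B, hBs, rfl⟩
      · refine mem_image.2 ⟨ψ e, ?_, sub_self _⟩
        refine mem_filter.2 ⟨mem_image_of_mem _ (hBsR heB), ?_⟩
        refine M.mem_closure_of_mem' ?_ heE
        left
        have : e ∈ R.filter (fun x => ψ x = ψ e) := mem_filter.2 ⟨hBsR heB, rfl⟩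
        exact_mod_cast this
      · intro l hl t ht hlt
        obtain ⟨J, hJR, hIJ, hJ, rfl⟩ := mem_labels.1 hl
        obtain ⟨g, hg, rfl⟩ := mem_image.1 ht
        obtain ⟨f, hfR, hfg, hfJ, hbase⟩ := hspan g hg J hJR hIJ hJ
        have heJ : e ∈ J := hIJ (mem_insert_self _ _)
        have hsumJ : ∑ x ∈ insert f (J.erase e), ψ x = ∑ x ∈ J, ψ x + (g - ψ e) := by
          rw [sum_insert hfJ, hfg, ← add_sum_erase J ψ heJ]; abel
        have hEq : insert f (J.erase e) = Bs := by
          apply huniq _ _ _ hbase
          · rw [hsumJ]; rw [hlt]; simp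
          · exact insert_subset hfR ((erase_subset _ _).trans hJR)
          · intro x hx
            have hxI := hKI hx
            have hxe : x ≠ e := fun h => heI (h ▸ hxI)
            exact mem_insert_of_mem (mem_erase.2 ⟨hxe, hIJ (mem_insert_of_mem hxI)⟩)
        have hef : e ∈ insert f (J.erase e) := by rw [hEq]; exact heB
        rcases mem_insert.1 hef with h | h
        · rw [← hfg, ← h]; exact sub_self _
        · exact absurd h (notMem_erase e J)
      · intro l hl t ht
        obtain ⟨J, hJR, hIJ, hJ, rfl⟩ := mem_labels.1 hl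
        obtain ⟨g, hg, rfl⟩ := mem_image.1 ht
        obtain ⟨f, hfR, hfg, hfJ, hbase⟩ := hspan g hg J hJR hIJ hJ
        have heJ : e ∈ J := hIJ (mem_insert_self _ _)
        refine mem_labels.2 ⟨insert f (J.erase e), insert_subset hfR ((erase_subset _ _).trans hJR),
          ?_, hbase, ?_⟩
        · intro x hx
          have hxe : x ≠ e := fun h => heI (h ▸ hx)
          exact mem_insert_of_mem (mem_erase.2 ⟨hxe, hIJ (mem_insert_of_mem hx)⟩)
        · rw [sum_insert hfJ, hfg, ← add_sum_erase J ψ heJ]; abel
    have hcI : (insert e I).card = I.card + 1 := card_insert_of_notMem heI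
    rw [hcI, hc', mul_add, mul_one] at hIH
    rw [hc]
    omega

/-- **The proximity conjecture for group-labelled matroids.** For a matroid `M` of finite rank, an
abelian group `Γ`, a labelling `ψ` and a finite set `F` of forbidden labels: if some basis avoids
`F`, then every basis `B` is within `|F|` exchanges of a basis `B'` that avoids `F`. -/
theorem result {α Γ : Type*} [AddCommGroup Γ] (M : Matroid α) [M.RankFinite] (ψ : α → Γ)
    (F : Finset Γ) (hex : ∃ A : Set α, M.IsBase A ∧ (∑ᶠ e ∈ A, ψ e) ∉ F)
    (B : Set α) (hB : M.IsBase B) :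
    ∃ B' : Set α, M.IsBase B' ∧ (∑ᶠ e ∈ B', ψ e) ∉ F ∧ (B \ B').ncard ≤ F.card := by
  classical
  obtain ⟨A, hA, hAF⟩ := hex
  lift A to Finset α using hA.finite
  lift B to Finset α using hB.finite
  rw [finsum_mem_coe_finset] at hAF
  have hP : ∃ d, ∃ J : Finset α, M.IsBase (J : Set α) ∧ ∑ x ∈ J, ψ x ∉ F ∧ (B \ J).card = d :=
    ⟨_, A, hA, hAF, rfl⟩
  obtain ⟨Bs, hBs, hBsF, hd⟩ := Nat.find_spec hP
  have hmin0 : ∀ J : Finset α, M.IsBase (J : Set α) → ∑ x ∈ J, ψ x ∉ F →
      (B \ Bs).card ≤ (B \ J).card := by
    intro J hJ hJF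
    rw [hd]
    exact Nat.find_min' hP ⟨J, hJ, hJF, rfl⟩
  let R : Finset α := B ∪ Bs
  let K : Finset α := B ∩ Bs
  have hmin : ∀ J : Finset α, J ⊆ R → K ⊆ J → M.IsBase (J : Set α) → ∑ x ∈ J, ψ x ∉ F →
      J = Bs := by
    intro J hJR hKJ hJ hJF
    have h1 := hmin0 J hJ hJF
    have hsub : B \ J ⊆ B \ Bs := by
      intro x hx
      obtain ⟨hxB, hxJ⟩ := mem_sdiff.1 hx
      exact mem_sdiff.2 ⟨hxB, fun h => hxJ (hKJ (mem_inter.2 ⟨hxB, h⟩))⟩
    have heq : B \ J = B \ Bs := eq_of_subset_of_card_le hsub h1
    have hJB : J ⊆ Bs := by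
      intro x hx
      rcases mem_union.1 (hJR hx) with h | h
      · by_contra hcon
        have : x ∈ B \ J := by rw [heq]; exact mem_sdiff.2 ⟨h, hcon⟩
        exact (mem_sdiff.1 this).2 hx
      · exact h
    have := hJ.eq_of_subset_isBase hBs (by exact_mod_cast hJB)
    exact_mod_cast this
  have hRE : (R : Set α) ⊆ M.E := by
    simp only [R, coe_union]
    exact Set.union_subset hB.subset_ground hBs.subset_ground
  have hBsR : Bs ⊆ R := subset_union_right
  have hKBs : K ⊆ Bs := inter_subset_right
  have huniq : ∀ J : Finset α, J ⊆ R → K ⊆ J → M.IsBase (J : Set α) →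
      ∑ x ∈ J, ψ x = ∑ x ∈ Bs, ψ x → J = Bs := by
    intro J h1 h2 h3 h4
    exact hmin J h1 h2 h3 (by rw [h4]; exact hBsF)
  have hkey := key M ψ R K Bs hRE hBsR hBs huniq _ K Subset.rfl hKBs rfl
  have hlab : (labels M ψ R K).card ≤ F.card + 1 := by
    have hsub : labels M ψ R K ⊆ insert (∑ x ∈ Bs, ψ x) F := by
      intro g hg
      obtain ⟨J, h1, h2, h3, rfl⟩ := mem_labels.1 hg
      by_cases h : ∑ x ∈ J, ψ x ∈ F
      · exact mem_insert_of_mem h
      · rw [hmin J h1 h2 h3 h]; exact mem_insert_self _ _
    exact (card_le_card hsub).trans (card_insert_le _ _)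
  have hcrk : ∀ g, crk M ψ R K g = ((R \ K).filter (fun x => ψ x = g)).card + K.card := by
    intro g
    have hind : M.Indep (((R.filter (fun x => ψ x = g) : Finset α) : Set α) ∪ (K : Set α)) := by
      by_contra hdep
      have hsubE : (((R.filter (fun x => ψ x = g) : Finset α) : Set α) ∪ (K : Set α)) ⊆ M.E := by
        apply Set.union_subset
        · exact (by exact_mod_cast filter_subset _ _ :
            ((R.filter (fun x => ψ x = g) : Finset α) : Set α) ⊆ (R : Set α)).trans hRE
        · exact (by exact_mod_cast hKBs : (K : Set α) ⊆ (Bs : Set α)).trans hBs.subset_ground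
      rw [Matroid.not_indep_iff hsubE] at hdep
      obtain ⟨C, hCsub, hC⟩ := hdep.exists_isCircuit_subset
      have hCB : ¬ C ⊆ (B : Set α) := fun h => hC.dep.not_indep (hB.indep.subset h)
      obtain ⟨e, heC, heB⟩ := Set.not_subset.1 hCB
      have heK : e ∉ K := fun h => heB (by exact_mod_cast (mem_inter.1 h).1)
      have heg : e ∈ R ∧ ψ e = g := by
        rcases hCsub heC with h | h
        · simpa using h
        · exact absurd (by exact_mod_cast h) heK
      have heBs : e ∈ Bs := by
        rcases mem_union.1 heg.1 with h | h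
        · exact absurd (by exact_mod_cast h) heB
        · exact h
      have hecl := hC.mem_closure_sdiff_singleton_of_mem heC
      have hencl := hBs.indep.notMem_closure_sdiff_of_mem
        (by exact_mod_cast heBs : e ∈ (Bs : Set α))
      have hnsub : ¬ C \ {e} ⊆ M.closure ((Bs : Set α) \ {e}) := fun h =>
        hencl (M.closure_subset_closure_of_subset_closure h hecl)
      obtain ⟨f, hfC, hfcl⟩ := Set.not_subset.1 hnsub
      have hfe : f ≠ e := fun h => hfC.2 (by simp [h])
      have hfK : f ∉ K := by
        intro h
        apply hfcl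
        refine M.mem_closure_of_mem ?_ ?_
        · refine ⟨by exact_mod_cast hKBs h, by simpa using hfe⟩
        · exact Set.sdiff_subset.trans hBs.subset_ground
      have hfg : f ∈ R ∧ ψ f = g := by
        rcases hCsub hfC.1 with h | h
        · simpa using h
        · exact absurd (by exact_mod_cast h) hfK
      obtain ⟨h1, h2⟩ := exch hBs heBs (hRE (by exact_mod_cast hfg.1)) (by rw [coe_erase]; exact hfcl)
      have hEq : insert f (Bs.erase e) = Bs := by
        apply huniq _ _ _ h2
        · rw [sum_insert h1, hfg.2, ← heg.2, add_sum_erase _ _ heBs]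
        · exact insert_subset hfg.1 ((erase_subset _ _).trans hBsR)
        · intro x hx
          have hxe : x ≠ e := fun h => heK (h ▸ hx)
          exact mem_insert_of_mem (mem_erase.2 ⟨hxe, hKBs hx⟩)
      have : e ∈ insert f (Bs.erase e) := by rw [hEq]; exact heBs
      rcases mem_insert.1 this with h | h
      · exact hfe h.symm
      · exact absurd h (notMem_erase e Bs)
    unfold crk
    rw [hind.eRk_eq_encard, ← coe_union, Set.encard_coe_eq_coe_finsetCard]
    have hun : R.filter (fun x => ψ x = g) ∪ K = (R \ K).filter (fun x => ψ x = g) ∪ K := by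
      ext x
      simp only [mem_union, mem_filter, mem_sdiff]
      tauto
    rw [hun, card_union_of_disjoint]
    · rfl
    · rw [disjoint_left]
      intro x hx hxK
      exact (mem_sdiff.1 (mem_filter.1 hx).1).2 hxK
  have hsum : ∑ g ∈ R.image ψ, crk M ψ R K g = (R \ K).card + (R.image ψ).card * K.card := by
    rw [sum_congr rfl (fun g _ => hcrk g), sum_add_distrib, sum_const, smul_eq_mul]
    congr 1
    symm
    apply card_eq_sum_card_fiberwise
    intro x hx
    have hx' : x ∈ R \ K := by exact_mod_cast hx
    exact_mod_cast mem_image_of_mem ψ (mem_sdiff.1 hx').1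
  have hRK : (R \ K).card = (B \ Bs).card + (Bs \ K).card := by
    have : R \ K = (B \ Bs) ∪ (Bs \ K) := by
      ext x
      simp only [R, K, mem_union, mem_sdiff, mem_inter]
      tauto
    rw [this, card_union_of_disjoint]
    rw [disjoint_left]
    intro x hx hx'
    exact (mem_sdiff.1 hx).2 (mem_sdiff.1 hx').1
  refine ⟨(Bs : Set α), hBs, ?_, ?_⟩
  · rw [finsum_mem_coe_finset]; exact hBsF
  · rw [← coe_sdiff, Set.ncard_coe_finset]
    omega

end Pool.Agent.Results.MP_2a6b7d_co.Proximity
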